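import Pool.Agent.Helper69.AS.St

/-!
# Project AS, module MB: automorphisms of the unit disc
-/

set_option autoImplicit false

open Filter Topology Matrix Set MeasureTheory
open scoped ENNReal ComplexOrder

namespace Pool.Agent.Helper92.AS

open Pool.Agent.Helper35.PM Pool.Agent.Helper69.AS

lemma normSq_id (a ζ : ℂ) : Complex.normSq (1 + (starRingEnd ℂ) a * ζ) - Complex.normSq (ζ + a) =
    (1 - Complex.normSq a) * (1 - Complex.normSq ζ) := by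
  simp only [Complex.normSq_apply, Complex.add_re, Complex.add_im, Complex.mul_re, Complex.mul_im,
    Complex.conj_re, Complex.conj_im, Complex.one_re, Complex.one_im]
  ring

lemma norm_id (a ζ : ℂ) : ‖1 + (starRingEnd ℂ) a * ζ‖ ^ 2 - ‖ζ + a‖ ^ 2 =
    (1 - ‖a‖ ^ 2) * (1 - ‖ζ‖ ^ 2) := by
  simp only [← Complex.normSq_eq_norm_sq]
  exact normSq_id a ζ

lemma den_ne (a ζ : ℂ) (ha : ‖a‖ < 1) (hζ : ‖ζ‖ < 1) : 1 + (starRingEnd ℂ) a * ζ ≠ 0 := by
  intro h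
  have h1 : (starRingEnd ℂ) a * ζ = -1 := by linear_combination h
  have h2 : ‖(starRingEnd ℂ) a * ζ‖ = 1 := by rw [h1]; simp
  rw [norm_mul, RCLike.norm_conj] at h2
  have h3 : ‖a‖ * ‖ζ‖ < 1 := by
    have := norm_nonneg a
    have := norm_nonneg ζ
    nlinarith
  linarith

lemma one_sub_sq (a ζ : ℂ) (ha : ‖a‖ < 1) (hζ : ‖ζ‖ < 1) : 1 - ‖mob a ζ‖ ^ 2 =
    (1 - ‖a‖ ^ 2) * (1 - ‖ζ‖ ^ 2) / ‖1 + (starRingEnd ℂ) a * ζ‖ ^ 2 := by
  have hd := den_ne a ζ ha hζ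
  have hd' : ‖1 + (starRingEnd ℂ) a * ζ‖ ≠ 0 := norm_ne_zero_iff.2 hd
  rw [← norm_id a ζ, mob, norm_div, div_pow, sub_div, div_self (pow_ne_zero 2 hd')]

lemma mob_norm_lt (a ζ : ℂ) (ha : ‖a‖ < 1) (hζ : ‖ζ‖ < 1) : ‖mob a ζ‖ < 1 := by
  have h := one_sub_sq a ζ ha hζ
  have hd := den_ne a ζ ha hζ
  have hd' : 0 < ‖1 + (starRingEnd ℂ) a * ζ‖ := norm_pos_iff.2 hd
  have ha0 := norm_nonneg a
  have hz0 := norm_nonneg ζ
  have h1 : 0 < 1 - ‖a‖ ^ 2 := by nlinarith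
  have h2 : 0 < 1 - ‖ζ‖ ^ 2 := by nlinarith
  have h3 : 0 < 1 - ‖mob a ζ‖ ^ 2 := by
    rw [h]; positivity
  have h4 := norm_nonneg (mob a ζ)
  nlinarith

lemma mob_norm_le (a ζ : ℂ) (ha : ‖a‖ < 1) (hζ : ‖ζ‖ < 1) :
    ‖mob a ζ‖ ≤ (‖a‖ + ‖ζ‖) / (1 + ‖a‖ * ‖ζ‖) := by
  have h := one_sub_sq a ζ ha hζ
  have hd := den_ne a ζ ha hζ
  have hd' : 0 < ‖1 + (starRingEnd ℂ) a * ζ‖ := norm_pos_iff.2 hd
  have ha0 := norm_nonneg a
  have hz0 := norm_nonneg ζ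
  have h1 : 0 < 1 - ‖a‖ ^ 2 := by nlinarith
  have h2 : 0 < 1 - ‖ζ‖ ^ 2 := by nlinarith
  have h3 : ‖1 + (starRingEnd ℂ) a * ζ‖ ≤ 1 + ‖a‖ * ‖ζ‖ := by
    calc ‖1 + (starRingEnd ℂ) a * ζ‖ ≤ ‖(1 : ℂ)‖ + ‖(starRingEnd ℂ) a * ζ‖ := norm_add_le _ _
      _ = 1 + ‖a‖ * ‖ζ‖ := by rw [norm_mul, RCLike.norm_conj, norm_one]
  have h4 : (1 - ‖a‖ ^ 2) * (1 - ‖ζ‖ ^ 2) / (1 + ‖a‖ * ‖ζ‖) ^ 2 ≤ 1 - ‖mob a ζ‖ ^ 2 := by
    rw [h]
    apply div_le_div_of_nonneg_left (by positivity) (by positivity)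
    exact pow_le_pow_left₀ hd'.le h3 2
  have h5 : (1 - ‖a‖ ^ 2) * (1 - ‖ζ‖ ^ 2) / (1 + ‖a‖ * ‖ζ‖) ^ 2 =
      1 - ((‖a‖ + ‖ζ‖) / (1 + ‖a‖ * ‖ζ‖)) ^ 2 := by
    have : (1 + ‖a‖ * ‖ζ‖) ≠ 0 := by positivity
    field_simp
    ring
  rw [h5] at h4
  have h6 : ‖mob a ζ‖ ^ 2 ≤ ((‖a‖ + ‖ζ‖) / (1 + ‖a‖ * ‖ζ‖)) ^ 2 := by linarith
  exact (pow_le_pow_iff_left₀ (norm_nonneg _) (by positivity) (by norm_num)).1 h6

lemma mob_inv (a ζ : ℂ) (ha : ‖a‖ < 1) (hζ : ‖ζ‖ < 1) : mob (-a) (mob a ζ) = ζ := by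
  have hd := den_ne a ζ ha hζ
  have hna : ‖-a‖ < 1 := by rwa [norm_neg]
  have hd2 := den_ne (-a) (mob a ζ) hna (mob_norm_lt a ζ ha hζ)
  have e1 : mob a ζ * (1 + (starRingEnd ℂ) a * ζ) = ζ + a := div_mul_cancel₀ _ hd
  have e2 : mob (-a) (mob a ζ) * (1 + (starRingEnd ℂ) (-a) * mob a ζ) = mob a ζ + -a :=
    div_mul_cancel₀ _ hd2
  apply mul_right_cancel₀ hd2
  rw [e2]
  apply mul_right_cancel₀ hd
  rw [map_neg]
  linear_combination (1 + (starRingEnd ℂ) a * ζ) * e1 - (1 + (starRingEnd ℂ) a * ζ) * e1 +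
    (1 : ℂ) * e1 + (starRingEnd ℂ) a * ζ * e1

theorem hMB : StMB := by
  refine ⟨fun a ζ ha hζ => ⟨mob_norm_lt a ζ ha hζ, mob_norm_le a ζ ha hζ, mob_inv a ζ ha hζ⟩,
    ?_, ?_, ?_⟩
  · intro a ha
    have h : DifferentiableOn ℂ (fun ζ : ℂ => (ζ + a) / (1 + (starRingEnd ℂ) a * ζ))
        (Metric.ball 0 1) := by
      apply DifferentiableOn.div
      · fun_prop
      · fun_prop
      · intro ζ hζ
        exact den_ne a ζ ha (by simpa using hζ)
    exact h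
  · intro a
    simp [mob]
  · intro z b hz hb
    have hnz : ‖-z‖ < 1 := by rwa [norm_neg]
    have hq := mob_norm_lt (-z) b hnz hb
    have hbq : mob z (mob (-z) b) = b := by
      have := mob_inv (-z) b hnz hb
      rwa [neg_neg] at this
    generalize mob (-z) b = q at hq hbq
    have hD := den_ne z q hz hq
    have hD' : 1 + z * (starRingEnd ℂ) q ≠ 0 := by
      have := (map_ne_zero (starRingEnd ℂ)).2 hD
      simpa using this
    refine ⟨(1 + z * (starRingEnd ℂ) q) / (1 + (starRingEnd ℂ) z * q), ?_, ?_⟩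
    · have h1 : (1 + z * (starRingEnd ℂ) q) = (starRingEnd ℂ) (1 + (starRingEnd ℂ) z * q) := by
        simp
      rw [norm_div, h1, RCLike.norm_conj]
      exact div_self (norm_ne_zero_iff.2 hD)
    · intro ζ hζ
      have hE := den_ne q ζ hq hζ
      have hm := mob_norm_lt q ζ hq hζ
      have hF := den_ne z (mob q ζ) hz hm
      set c := (1 + z * (starRingEnd ℂ) q) / (1 + (starRingEnd ℂ) z * q) with hc
      have hcn : ‖c‖ = 1 := by
        have h1 : (1 + z * (starRingEnd ℂ) q) = (starRingEnd ℂ) (1 + (starRingEnd ℂ) z * q) := by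
          simp
        rw [hc, norm_div, h1, RCLike.norm_conj]
        exact div_self (norm_ne_zero_iff.2 hD)
      have hcζ : ‖c * ζ‖ < 1 := by rw [norm_mul, hcn, one_mul]; exact hζ
      have hG := den_ne b (c * ζ) hb hcζ
      -- values
      have e1 : mob q ζ * (1 + (starRingEnd ℂ) q * ζ) = ζ + q := div_mul_cancel₀ _ hE
      have e2 : b * (1 + (starRingEnd ℂ) z * q) = q + z := by
        rw [← hbq]; exact div_mul_cancel₀ _ hD
      have e3 : c * (1 + (starRingEnd ℂ) z * q) = 1 + z * (starRingEnd ℂ) q := by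
        rw [hc]; exact div_mul_cancel₀ _ hD
      have e4 : (starRingEnd ℂ) b * (1 + z * (starRingEnd ℂ) q) =
          (starRingEnd ℂ) q + (starRingEnd ℂ) z := by
        have := congrArg (starRingEnd ℂ) e2
        simpa using this
      have e5 : (starRingEnd ℂ) b * c * (1 + (starRingEnd ℂ) z * q) =
          (starRingEnd ℂ) q + (starRingEnd ℂ) z := by
        rw [mul_assoc, e3, e4]
      have f1 : mob z (mob q ζ) = (mob q ζ + z) / (1 + (starRingEnd ℂ) z * mob q ζ) := rfl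
      have f2 : mob b (c * ζ) = (c * ζ + b) / (1 + (starRingEnd ℂ) b * (c * ζ)) := rfl
      rw [f1, f2, div_eq_div_iff hF hG]
      apply mul_right_cancel₀ hE
      apply mul_right_cancel₀ hD
      have g1 : (mob q ζ + z) * (1 + (starRingEnd ℂ) q * ζ) =
          (1 + z * (starRingEnd ℂ) q) * ζ + (q + z) := by linear_combination e1
      have g2 : (1 + (starRingEnd ℂ) z * mob q ζ) * (1 + (starRingEnd ℂ) q * ζ) =
          (1 + (starRingEnd ℂ) z * q) + ((starRingEnd ℂ) q + (starRingEnd ℂ) z) * ζ := by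
        linear_combination (starRingEnd ℂ) z * e1
      have g3 : (c * ζ + b) * (1 + (starRingEnd ℂ) z * q) =
          (1 + z * (starRingEnd ℂ) q) * ζ + (q + z) := by linear_combination ζ * e3 + e2
      have g4 : (1 + (starRingEnd ℂ) b * (c * ζ)) * (1 + (starRingEnd ℂ) z * q) =
          (1 + (starRingEnd ℂ) z * q) + ((starRingEnd ℂ) q + (starRingEnd ℂ) z) * ζ := by
        linear_combination ζ * e5
      calc (mob q ζ + z) * (1 + (starRingEnd ℂ) b * (c * ζ)) * (1 + (starRingEnd ℂ) q * ζ) *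
            (1 + (starRingEnd ℂ) z * q)
          = ((mob q ζ + z) * (1 + (starRingEnd ℂ) q * ζ)) *
            ((1 + (starRingEnd ℂ) b * (c * ζ)) * (1 + (starRingEnd ℂ) z * q)) := by ring
        _ = ((c * ζ + b) * (1 + (starRingEnd ℂ) z * q)) *
            ((1 + (starRingEnd ℂ) z * mob q ζ) * (1 + (starRingEnd ℂ) q * ζ)) := by
            rw [g1, g2, g3, g4]
        _ = (c * ζ + b) * (1 + (starRingEnd ℂ) z * mob q ζ) * (1 + (starRingEnd ℂ) q * ζ) *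
            (1 + (starRingEnd ℂ) z * q) := by ring

end Pool.Agent.Helper92.AS
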